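import Mathlib
import Pool.Agent.TH922.KC.Con6

/-!
# Curves on complete intersections with integral equations

The toric complete intersections of `Pool.Agent.TH922.KC.Con4` have integral equations, and the
statement about the degrees of the curves on them holds over residue fields of any characteristic
which does not divide `Q` and is larger than the number of the vertices of the graph.
-/

set_option autoImplicit false
set_option linter.unusedSectionVars false

open MvPolynomial Pool.Agent.TH922.KC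

namespace Pool.Agent.U660.AC

section forms

variable {n N r : ℕ} {Γ : Type} [DecidableEq Γ]

/-- the linear form `∑ i, j ^ i y_i` -/
noncomputable def lf (n N r : ℕ) (j : Fin (N + 1)) : MvPolynomial (Fin (n + 1) ⊕ Fin r) ℤ :=
  ∑ i : Fin (n + 1), C (((j : ℕ) : ℤ) ^ (i : ℕ)) * X (Sum.inl i)

lemma lf_map (κ : Type) [Field κ] (j : Fin (N + 1)) :
    MvPolynomial.map (Int.castRingHom κ) (lf n N r j) = LF (VL κ n N) j := by
  unfold lf LF VL
  rw [map_sum]
  refine Finset.sum_congr rfl fun i _ => ?_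
  rw [map_mul, map_C, map_X, map_pow]
  simp

lemma lf_hom (j : Fin (N + 1)) : (lf n N r j).IsHomogeneous 1 := by
  refine IsHomogeneous.sum _ _ _ fun i _ => ?_
  exact (isHomogeneous_X ℤ (Sum.inl i : Fin (n + 1) ⊕ Fin r)).C_mul _

/-- the binomials -/
noncomputable def bz (n : ℕ) (g : Fin r → Γ) (q : Fin r → ℕ) (a b : Fin r → Fin (N + 1))
    (i : Fin r) : MvPolynomial (Fin (n + 1) ⊕ Fin r) ℤ :=
  X (Sum.inr i) ^ (q i) - lf n N r (a i) ^ (q i - 1) *
    (if h : (Sg g i).Nonempty then X (Sum.inr ((Sg g i).max' h)) else lf n N r (b i))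

lemma bz_hom (g : Fin r → Γ) (q : Fin r → ℕ) (a b : Fin r → Fin (N + 1)) (hq : ∀ i, 0 < q i)
    (i : Fin r) : (bz n g q a b i).IsHomogeneous (q i) := by
  unfold bz
  refine (isHomogeneous_X_pow _ _).sub ?_
  have h1 : (if h : (Sg g i).Nonempty then X (Sum.inr ((Sg g i).max' h)) else lf n N r (b i) :
      MvPolynomial (Fin (n + 1) ⊕ Fin r) ℤ).IsHomogeneous 1 := by
    split_ifs
    · exact isHomogeneous_X _ _
    · exact lf_hom _
  have h2 := ((lf_hom (n := n) (r := r) (a i)).pow (q i - 1)).mul h1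
  rw [one_mul] at h2
  rwa [Nat.sub_add_cancel (hq i)] at h2

lemma bz_map (κ : Type) [Field κ] (g : Fin r → Γ) (q : Fin r → ℕ) (a b : Fin r → Fin (N + 1))
    (i : Fin r) :
    MvPolynomial.map (Int.castRingHom κ) (bz n g q a b i)
      = aeval (sg κ n N r) (Bin g q a b κ i) := by
  unfold bz Bin
  rw [map_sub, map_mul, map_pow, map_pow, map_X, map_sub, map_mul, map_pow, map_pow, aeval_X,
    aeval_X, lf_map]
  congr 2
  split_ifs
  · rw [map_X, aeval_X]
    rfl
  · rw [lf_map, aeval_X]
    rfl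

/-- the forms of degree `d i` -/
noncomputable def gz (n : ℕ) (d : Fin r → ℕ) (g : Fin r → Γ) (q : Fin r → ℕ)
    (a b : Fin r → Fin (N + 1)) (i : Fin r) : MvPolynomial (Fin (n + r + 1)) ℤ :=
  rename (idx n r).symm (bz n g q a b i ^ (d i / q i))

lemma gz_hom (d : Fin r → ℕ) (g : Fin r → Γ) (q : Fin r → ℕ) (a b : Fin r → Fin (N + 1))
    (hq : ∀ i, 0 < q i) (hqd : ∀ i, q i ∣ d i) (i : Fin r) :
    (gz n d g q a b i).IsHomogeneous (d i) := by
  unfold gz
  apply IsHomogeneous.rename_isHomogeneous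
  have h := (bz_hom (n := n) g q a b hq i).pow (d i / q i)
  rwa [Nat.mul_div_cancel' (hqd i)] at h

end forms

section primitive

/-- roots of unity lie in valuation rings -/
lemma root_mem {K : Type*} [Field K] (B : ValuationSubring K) {Q : ℕ} (hQ : 0 < Q) {ζ : K}
    (h : ζ ^ Q = 1) : ζ ∈ B := by
  rcases B.mem_or_inv_mem ζ with h1 | h1
  · exact h1
  · have h0 : ζ ≠ 0 := by
      rintro rfl
      rw [zero_pow hQ.ne'] at h
      exact zero_ne_one h
    have h2 : ζ = (ζ⁻¹) ^ (Q - 1) := by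
      rw [inv_pow]
      apply eq_inv_of_mul_eq_one_left
      rw [← pow_succ', Nat.sub_add_cancel hQ, h]
    rw [h2]
    exact pow_mem h1 _

/-- reduction of a primitive root of unity -/
lemma exists_primitive (B : ValuationSubring ℂ) {Q : ℕ} (hQ : 0 < Q)
    (hQκ : ((Q : ℕ) : IsLocalRing.ResidueField B) ≠ 0) :
    ∃ ω : IsLocalRing.ResidueField B, IsPrimitiveRoot ω Q := by
  have hζ := Complex.isPrimitiveRoot_exp Q hQ.ne'
  set ζ := Complex.exp (2 * Real.pi * Complex.I / Q) with hζdef
  have hB : ζ ∈ B := root_mem B hQ hζ.pow_eq_one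
  have : NeZero ((Q : ℕ) : IsLocalRing.ResidueField B) := ⟨hQκ⟩
  have hroot : (Polynomial.cyclotomic Q ℂ).IsRoot ζ := hζ.isRoot_cyclotomic hQ
  refine ⟨IsLocalRing.residue B ⟨ζ, hB⟩, ?_⟩
  rw [← Polynomial.isRoot_cyclotomic_iff]
  have h1 : (Polynomial.cyclotomic Q B).IsRoot ⟨ζ, hB⟩ := by
    rw [Polynomial.IsRoot.def]
    apply B.subtype_injective
    rw [map_zero, ← Polynomial.eval₂_at_apply, ← Polynomial.eval_map, Polynomial.map_cyclotomic]
    exact hroot
  have h2 := h1.map (f := IsLocalRing.residue B)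
  rwa [Polynomial.map_cyclotomic] at h2

end primitive

/-- **The degrees of the curves, over a valuation ring of `ℂ`.** -/
theorem core {n r N m : ℕ} (d q : Fin r → ℕ) (g : Fin r → Fin m) (ga gb : Fin m → Fin (N + 1))
    (Q : ℕ) (hQ : 0 < Q) (hQ1 : Q ≠ 1)
    (hrob : ∀ K : Finset (Fin (N + 1)), K.card ≤ n →
      ∃ T : Finset (Fin (N + 1)), Disjoint K T ∧ n + 1 ≤ K.card + T.card ∧
        ∀ U ⊂ T, U.Nonempty → ∃ c, (ga c ∈ U ∧ gb c ∈ T \ U) ∨ (gb c ∈ U ∧ ga c ∈ T \ U))
    (hqpos : ∀ i, 0 < q i)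
    (hqprod : ∀ c, ∏ i ∈ Finset.univ.filter (fun i => g i = c), q i = Q)
    (B : ValuationSubring ℂ) (hQκ : ((Q : ℕ) : IsLocalRing.ResidueField B) ≠ 0)
    (hinj : Function.Injective (fun j : Fin (N + 1) =>
      (((j : ℕ) : IsLocalRing.ResidueField B))))
    (I : Ideal (MvPolynomial (Fin (n + r + 1)) ℂ)) (hI : IsHom I)
    (hdim : ringKrullDim (MvPolynomial (Fin (n + r + 1)) ℂ ⧸ I) = 2)
    (hred : ∀ i, MvPolynomial.map (Int.castRingHom (IsLocalRing.ResidueField B))
      (gz n d g q (fun i => ga (g i)) (fun i => gb (g i)) i) ∈ red B I) :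
    ∃ K : ℕ, ∀ k : ℕ, K ≤ k → (Q : ℤ) ∣ (hf I (k + 1) : ℤ) - (hf I k : ℤ) := by
  classical
  set a : Fin r → Fin (N + 1) := fun i => ga (g i) with ha
  set b : Fin r → Fin (N + 1) := fun i => gb (g i) with hb
  have hD : ∀ i, Dg g q i ∣ Q := by
    intro i
    rw [← hqprod (g i)]
    apply Finset.prod_dvd_prod_of_subset
    intro i' hi'
    simp only [Finset.mem_filter, Finset.mem_univ, true_and] at hi' ⊢
    exact hi'.1
  have hlast : ∀ c, ∃ i, g i = c ∧ Dg g q i = Q := by
    intro c
    have hnon : (Finset.univ.filter (fun i => g i = c)).Nonempty := by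
      by_contra h
      rw [Finset.not_nonempty_iff_eq_empty] at h
      have := hqprod c
      rw [h, Finset.prod_empty] at this
      exact hQ1 this.symm
    set i := (Finset.univ.filter (fun i => g i = c)).max' hnon with hi
    have hgi : g i = c := by
      have := (Finset.univ.filter (fun i => g i = c)).max'_mem hnon
      simpa only [Finset.mem_filter, Finset.mem_univ, true_and] using this
    refine ⟨i, hgi, ?_⟩
    rw [← hqprod c, Dg]
    congr 1
    ext i'
    simp only [Finset.mem_filter, Finset.mem_univ, true_and, hgi]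
    constructor
    · exact fun h => h.1
    · intro h
      refine ⟨h, Finset.le_max' _ _ (by simpa using h)⟩
  have hrob' : Robust n (N + 1) (fun i => Dg g q i = Q) a b := by
    intro K hK
    obtain ⟨T, h1, h2, h3⟩ := hrob K hK
    refine ⟨T, h1, h2, fun U hU hUn => ?_⟩
    obtain ⟨c, hc⟩ := h3 U hU hUn
    obtain ⟨i, hi, hDi⟩ := hlast c
    refine ⟨i, hDi, ?_⟩
    simp only [a, b, hi]
    exact hc
  obtain ⟨ω, hω⟩ := exists_primitive B hQ hQκ
  let ε := idx n r
  have hredh := red_hom B (I := I) hI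
  obtain ⟨C, hC⟩ := growth2 I hI hdim.le
  have hfin := kappa_graph (κ := IsLocalRing.ResidueField B) hQ ω
    hω (VL (IsLocalRing.ResidueField B) n N)
    (fun S hS => vand_gp _ hinj S hS) a b (Dg g q) hD hrob'
    ((red B I).comap (rename ε.symm : MvPolynomial (Fin (n + 1) ⊕ Fin r)
      (IsLocalRing.ResidueField B) →ₐ[IsLocalRing.ResidueField B] _))
    (hom_equiv ε hredh) ⟨C, fun t => by rw [hf_equiv, red_hf B hI]; exact hC t⟩
    (by
      intro P hP hJP i
      refine Bin_sg_mem g q a b hqpos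
        (fun i i' h => ⟨by simp only [a, h], by simp only [b, h]⟩) P (fun i => ?_) i
      have h1 : (aeval (sg (IsLocalRing.ResidueField B) n N r)
          (Bin g q a b (IsLocalRing.ResidueField B) i)) ^ (d i / q i) ∈ P := by
        apply hJP
        rw [Ideal.mem_comap]
        have h2 := hred i
        unfold gz at h2
        rw [MvPolynomial.map_rename, map_pow, bz_map] at h2
        exact h2
      exact hP.mem_of_pow_mem _ h1)
  obtain ⟨K, hK⟩ := hfin
  refine ⟨K, fun k hk => ?_⟩
  have h1 := hK k hk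
  rw [hf_equiv, hf_equiv, red_hf B hI, red_hf B hI] at h1
  exact h1

end Pool.Agent.U660.AC
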