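import Mathlib
import Pool.Agent.U660.AC.Core

/-!
# From residue fields to congruence classes
-/

set_option autoImplicit false
set_option linter.unusedSectionVars false

open MvPolynomial Pool.Agent.TH922.KC

namespace Pool.Agent.U660.AC

/-- the index set of the coefficients of `r` forms of degrees `d i` -/
abbrev Co (n : ℕ) {r : ℕ} (d : Fin r → ℕ) : Type :=
  Σ i : Fin r, {μ : Fin (n + r + 1) →₀ ℕ // μ.degree = d i}

/-- the forms with given coefficients -/
noncomputable def sy {n r : ℕ} (d : Fin r → ℕ) {R : Type*} [CommRing R] (c : Co n d → R)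
    (i : Fin r) : MvPolynomial (Fin (n + r + 1)) R :=
  tp (Fin (n + r + 1)) R (d i) (fun μ => c ⟨i, μ⟩)

/-- `Q` divides the degrees of the curves -/
def Dv (n : ℕ) {r : ℕ} (f : Fin r → MvPolynomial (Fin (n + r + 1)) ℂ) (Q : ℕ) : Prop :=
  ∀ I : Ideal (MvPolynomial (Fin (n + r + 1)) ℂ), IsHom I →
    ringKrullDim (MvPolynomial (Fin (n + r + 1)) ℂ ⧸ I) = 2 → (∀ i, f i ∈ I) →
      ∃ K : ℕ, ∀ k : ℕ, K ≤ k → (Q : ℤ) ∣ (hf I (k + 1) : ℤ) - (hf I k : ℤ)

/-- integral forms such that the reductions modulo `p` suffice for the divisibility by `Q` -/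
def Loc (n : ℕ) {r : ℕ} (d : Fin r → ℕ) (Q p : ℕ) : Prop :=
  ∃ G : Fin r → MvPolynomial (Fin (n + r + 1)) ℤ, (∀ i, (G i).IsHomogeneous (d i)) ∧
    ∀ B : ValuationSubring ℂ, ((p : ℕ) : IsLocalRing.ResidueField B) = 0 →
      ∀ I : Ideal (MvPolynomial (Fin (n + r + 1)) ℂ), IsHom I →
        ringKrullDim (MvPolynomial (Fin (n + r + 1)) ℂ ⧸ I) = 2 →
        (∀ i, MvPolynomial.map (Int.castRingHom (IsLocalRing.ResidueField B)) (G i) ∈ red B I) →
        ∃ K : ℕ, ∀ k : ℕ, K ≤ k → (Q : ℤ) ∣ (hf I (k + 1) : ℤ) - (hf I k : ℤ)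

/-- a subring in which `p` is not invertible is contained in a valuation ring of residue
characteristic `p` -/
lemma exists_val (A : Subring ℂ) (p : ℕ) (hp : p.Prime) (hA : ((p : ℂ))⁻¹ ∉ A) :
    ∃ B : ValuationSubring ℂ, A ≤ B.toSubring ∧ ((p : ℕ) : IsLocalRing.ResidueField B) = 0 := by
  have hp0 : (p : ℂ) ≠ 0 := by exact_mod_cast hp.ne_zero
  have hne : Ideal.span {((p : ℕ) : A)} ≠ ⊤ := by
    intro h
    rw [Ideal.span_singleton_eq_top] at h
    obtain ⟨u, hu⟩ := h.exists_right_inv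
    apply hA
    have h1 : ((p : ℂ)) * (u : ℂ) = 1 := by
      have := congrArg (Subtype.val) hu
      simpa using this
    rw [← eq_inv_of_mul_eq_one_right h1]
    exact u.2
  obtain ⟨B, hAB, hB⟩ := Ideal.image_subset_nonunits_valuationSubring _ hne
  refine ⟨B, hAB, ?_⟩
  have h1 : ((p : ℕ) : A) ∈ Ideal.span {((p : ℕ) : A)} := Ideal.mem_span_singleton_self _
  have h2 : ((p : ℂ)) ∈ B.nonunits := by
    have := hB ⟨_, h1, rfl⟩
    simpa using this
  rw [ValuationSubring.mem_nonunits_iff_exists_mem_maximalIdeal] at h2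
  obtain ⟨h3, h4⟩ := h2
  have h5 : IsLocalRing.residue B ⟨(p : ℂ), h3⟩ = 0 := by
    rw [IsLocalRing.residue_eq_zero_iff]; exact h4
  have h6 : (⟨(p : ℂ), h3⟩ : B) = ((p : ℕ) : B) := by
    apply Subtype.ext
    simp
  rw [h6, map_natCast] at h5
  exact h5

/-- the reductions of forms with coefficients congruent to integers -/
lemma mem_red_of {n r : ℕ} (d : Fin r → ℕ) (G : Fin r → MvPolynomial (Fin (n + r + 1)) ℤ)
    (hG : ∀ i, (G i).IsHomogeneous (d i)) (p : ℕ) (A : Subring ℂ) (B : ValuationSubring ℂ)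
    (hAB : A ≤ B.toSubring) (hp : ((p : ℕ) : IsLocalRing.ResidueField B) = 0)
    (c : Co n d → ℂ)
    (hc : ∀ s : Co n d, ∃ u ∈ A, c s = ((coeff s.2.1 (G s.1) : ℤ) : ℂ) + p * u)
    (I : Ideal (MvPolynomial (Fin (n + r + 1)) ℂ)) (hI : ∀ i, sy d c i ∈ I) (i : Fin r) :
    MvPolynomial.map (Int.castRingHom (IsLocalRing.ResidueField B)) (G i) ∈ red B I := by
  choose u hu hcu using hc
  have huB : ∀ s, u s ∈ B := fun s => hAB (hu s)
  let v : Co n d → B := fun s => ((coeff s.2.1 (G s.1) : ℤ) : B) + ((p : ℕ) : B) * ⟨u s, huB s⟩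
  have hv : ∀ s, B.subtype (v s) = c s := by
    intro s
    rw [hcu s]
    simp only [v, map_add, map_mul, map_natCast, map_intCast]
    rfl
  have hv2 : ∀ s, IsLocalRing.residue B (v s)
      = ((coeff s.2.1 (G s.1) : ℤ) : IsLocalRing.ResidueField B) := by
    intro s
    simp only [v, map_add, map_mul, map_natCast, map_intCast, hp, zero_mul, add_zero]
  rw [mem_red]
  refine ⟨tp _ B (d i) (fun μ => v ⟨i, μ⟩), ?_, ?_⟩
  · rw [map_tp]
    have : (fun μ => B.subtype (v ⟨i, μ⟩)) = fun μ => c ⟨i, μ⟩ := funext fun μ => hv _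
    rw [this]
    exact hI i
  · rw [map_tp]
    conv_rhs => rw [← tp_coeff (d i) (hG i)]
    rw [map_tp]
    congr 1
    funext μ
    rw [hv2]
    rfl

/-- congruence classes which work for all `Q` in a finite set -/
theorem assemble {n r : ℕ} (d : Fin r → ℕ) (S : Finset ℕ)
    (hS : ∀ Q ∈ S, ∀ N₀ : ℕ, ∃ p, N₀ < p ∧ p.Prime ∧ Loc n d Q p) :
    ∃ (M : ℕ) (e : Co n d → ℤ), 0 < M ∧
      ∀ A : Subring ℂ, (∀ p : ℕ, p.Prime → p ∣ M → ((p : ℂ))⁻¹ ∉ A) →
        ∀ c : Co n d → ℂ, (∀ s, ∃ u ∈ A, c s = e s + M * u) →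
          ∀ Q ∈ S, Dv n (sy d c) Q := by
  classical
  induction S using Finset.induction_on with
  | empty => exact ⟨1, fun _ => 0, one_pos, fun _ _ _ _ Q hQ => absurd hQ (Finset.notMem_empty Q)⟩
  | insert Q S hQS ih =>
    obtain ⟨M, e, hM, h⟩ := ih fun Q' hQ' => hS Q' (Finset.mem_insert_of_mem hQ')
    obtain ⟨p, hMp, hp, G, hG, hGp⟩ := hS Q (Finset.mem_insert_self Q S) M
    have hcop : IsCoprime (M : ℤ) (p : ℤ) := by
      rw [Nat.isCoprime_iff_coprime]
      exact Nat.Coprime.symm ((Nat.Prime.coprime_iff_not_dvd hp).mpr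
        (fun hd => absurd (Nat.le_of_dvd hM hd) (by omega)))
    obtain ⟨x, y, hxy⟩ := hcop
    let g : Co n d → ℤ := fun s => coeff s.2.1 (G s.1)
    refine ⟨M * p, fun s => e s * (y * p) + g s * (x * M), Nat.mul_pos hM hp.pos, ?_⟩
    intro A hA c hc Q' hQ'
    rcases Finset.mem_insert.mp hQ' with rfl | hQ'S
    · obtain ⟨B, hAB, hB⟩ := exists_val A p hp (hA p hp (Dvd.intro_left M rfl))
      intro I hI hdim hIf
      refine hGp B hB I hI hdim fun i => ?_
      refine mem_red_of d G hG p A B hAB hB c (fun s => ?_) I hIf i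
      obtain ⟨u, hu, hcu⟩ := hc s
      refine ⟨((M : ℕ) : ℂ) * u + (((e s - g s) * y : ℤ) : ℂ), ?_, ?_⟩
      · exact A.add_mem (A.mul_mem (natCast_mem A M) hu) (intCast_mem A _)
      · rw [hcu]
        have h1 : ((x : ℂ)) * M = 1 - y * p := by
          have := congrArg (Int.cast : ℤ → ℂ) hxy
          push_cast at this
          linear_combination this
        push_cast
        change _ = ((g s : ℤ) : ℂ) + _
        linear_combination ((g s : ℤ) : ℂ) * h1
    · refine h A (fun q hq hqM => hA q hq (hqM.mul_right p)) c (fun s => ?_) Q' hQ'S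
      obtain ⟨u, hu, hcu⟩ := hc s
      refine ⟨((p : ℕ) : ℂ) * u + (((g s - e s) * x : ℤ) : ℂ), ?_, ?_⟩
      · exact A.add_mem (A.mul_mem (natCast_mem A p) hu) (intCast_mem A _)
      · rw [hcu]
        have h1 : ((y : ℂ)) * p = 1 - x * M := by
          have := congrArg (Int.cast : ℤ → ℂ) hxy
          push_cast at this
          linear_combination this
        push_cast
        linear_combination ((e s : ℤ) : ℂ) * h1

end Pool.Agent.U660.AC
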