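import Mathlib
import Pool.Agent.U660.AC.Loc
import Pool.Agent.TH922.KC.Mer5

/-!
# The two kinds of equations
-/

set_option autoImplicit false
set_option linter.unusedSectionVars false

open MvPolynomial Pool.Agent.TH922.KC

namespace Pool.Agent.U660.AC

lemma cast_ne_zero' {κ : Type*} [Field κ] {p t : ℕ} (hp : p.Prime) (hpκ : ((p : ℕ) : κ) = 0)
    (ht : ¬ p ∣ t) : ((t : ℕ) : κ) ≠ 0 := by
  intro h
  have := (CharP.charP_iff_prime_eq_zero hp (R := κ)).mpr hpκ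
  exact ht ((CharP.cast_eq_zero_iff κ p t).mp h)

lemma cast_inj' {κ : Type*} [Field κ] {p N : ℕ} (hp : p.Prime) (hpκ : ((p : ℕ) : κ) = 0)
    (hN : N < p) : Function.Injective (fun j : Fin (N + 1) => (((j : ℕ) : κ))) := by
  have key : ∀ a b : ℕ, a < b → b ≤ N → (a : κ) = (b : κ) → False := by
    intro a b hab hb h
    have h1 : (((b - a : ℕ)) : κ) = 0 := by
      rw [Nat.cast_sub hab.le, h, sub_self]
    exact cast_ne_zero' hp hpκ (fun hd => by
      have := Nat.le_of_dvd (by omega) hd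
      omega) h1
  intro j j' h
  have hj := j.2
  have hj' := j'.2
  rcases lt_trichotomy j.1 j'.1 with h1 | h1 | h1
  · exact (key _ _ h1 (by omega) h).elim
  · exact Fin.ext h1
  · exact (key _ _ h1 (by omega) h.symm).elim

lemma loc_one {n r : ℕ} (d : Fin r → ℕ) (p : ℕ) : Loc n d 1 p := by
  refine ⟨fun i => X 0 ^ (d i), fun i => isHomogeneous_X_pow _ _, fun B _ I _ _ _ => ⟨0, ?_⟩⟩
  intro k _
  exact_mod_cast one_dvd _

/-- groups of indices -/
theorem loc_group {n r m : ℕ} (d : Fin r → ℕ) (hm : Rob n m) (g : Fin r → Fin m) (Q : ℕ)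
    (hQ : 0 < Q) (hQg : ∀ c, Q ∣ ∏ i ∈ Finset.univ.filter (fun i => g i = c), d i) :
    ∃ N₀, ∀ p, N₀ < p → p.Prime → Loc n d Q p := by
  classical
  by_cases hQ1 : Q = 1
  · subst hQ1
    exact ⟨0, fun p _ _ => loc_one d p⟩
  obtain ⟨N, ga, gb, h⟩ := hm
  rcases N with _ | N
  · exfalso
    obtain ⟨T, -, hT, -⟩ := h ∅ (by simp)
    have h1 : T.card ≤ 0 := by
      have := Finset.card_le_univ T
      rwa [Fintype.card_fin] at this
    rw [Finset.card_empty] at hT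
    omega
  choose qq hqq1 hqq2 using fun c => exists_factor (Finset.univ.filter (fun i => g i = c)) d Q
    (hQg c)
  let q : Fin r → ℕ := fun i => qq (g i) i
  have hqd : ∀ i, q i ∣ d i := fun i => hqq1 (g i) i (by simp)
  have hqprod : ∀ c, ∏ i ∈ Finset.univ.filter (fun i => g i = c), q i = Q := by
    intro c
    rw [← hqq2 c]
    refine Finset.prod_congr rfl fun i hi => ?_
    simp only [Finset.mem_filter, Finset.mem_univ, true_and] at hi
    simp only [q, hi]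
  have hqpos : ∀ i, 0 < q i := by
    intro i
    have h1 : q i ∣ Q := by
      rw [← hqprod (g i)]
      exact Finset.dvd_prod_of_mem q (by simp)
    exact Nat.pos_of_dvd_of_pos h1 hQ
  refine ⟨max N Q, fun p hp hpp => ?_⟩
  refine ⟨gz n d g q (fun i => ga (g i)) (fun i => gb (g i)),
    gz_hom d g q _ _ hqpos hqd, fun B hB I hI hdim hred => ?_⟩
  refine core d q g ga gb Q hQ hQ1 (fun K hK => ?_) hqpos hqprod B
    (cast_ne_zero' hpp hB fun hd => ?_) (cast_inj' hpp hB (lt_of_le_of_lt (le_max_left _ _) hp))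
    I hI hdim hred
  · obtain ⟨T, h1, h2, h3⟩ := h K hK
    exact ⟨T, h1, h2, h3⟩
  · have := Nat.le_of_dvd hQ hd
    have := le_max_right N Q
    omega

lemma exists_root (p Q : ℕ) [Fact p.Prime] (hQ : 0 < Q) (h : p ≡ 1 [MOD Q]) :
    ∃ ω : ZMod p, IsPrimitiveRoot ω Q := by
  have hp := (Fact.out : p.Prime)
  have hdvd : Q ∣ p - 1 := (Nat.modEq_iff_dvd' hp.one_lt.le).mp h.symm
  obtain ⟨g, hg⟩ := IsCyclic.exists_ofOrder_eq_natCard (α := (ZMod p)ˣ)
  have hcard : Nat.card (ZMod p)ˣ = p - 1 := by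
    rw [Nat.card_eq_fintype_card, ZMod.card_units]
  rw [hcard] at hg
  obtain ⟨t, ht⟩ := hdvd
  have ht0 : t ≠ 0 := by
    rintro rfl
    have := hp.one_lt
    omega
  have h1 : orderOf (g ^ t) = Q := by
    rw [orderOf_pow_of_dvd ht0 (by rw [hg, ht]; exact Dvd.intro_left Q rfl), hg, ht,
      Nat.mul_div_cancel _ (Nat.pos_of_ne_zero ht0)]
  refine ⟨((g ^ t : (ZMod p)ˣ) : ZMod p), ?_⟩
  rw [IsPrimitiveRoot.coe_units_iff, ← h1]
  exact IsPrimitiveRoot.orderOf _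

/-- paired blocks -/
theorem loc_pair {n r : ℕ} (d : Fin r → ℕ) (Q : ℕ) (hQ : 2 ≤ Q) (hQ6 : Nat.Coprime Q 6)
    (bi : ℕ → Fin r) (mi : ℕ → ℕ → Fin r)
    (hbi : ∀ j j', 2 * j + 1 < n + 1 → 2 * j' + 1 < n + 1 → bi j = bi j' → j = j')
    (hmi : ∀ j l j' l', j < l → 2 * l < n + 1 → j' < l' → 2 * l' < n + 1 → mi j l = mi j' l' →
      j = j' ∧ l = l')
    (hbm : ∀ j j' l', 2 * j + 1 < n + 1 → j' < l' → 2 * l' < n + 1 → bi j ≠ mi j' l')
    (hd1 : ∀ j, 2 * j + 1 < n + 1 → Q ∣ d (bi j))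
    (hd2 : ∀ j l, j < l → 2 * l < n + 1 → Q ∣ d (mi j l) ∧ 2 * Q ^ 2 ≤ d (mi j l))
    (p : ℕ) (hp : p.Prime) (hpQ : p ≡ 1 [MOD Q]) : Loc n d Q p := by
  classical
  have : Fact p.Prime := ⟨hp⟩
  obtain ⟨ω, hω⟩ := exists_root p Q (by omega) hpQ
  have hQ0 : 0 < Q := by omega
  -- the merging forms
  have hE : ∀ j l, j < l → 2 * l < n + 1 → ∃ E : MvPolynomial (Fin (n + 1) ⊕ Fin r) ℤ,
      E.IsHomogeneous (d (mi j l)) ∧
      ∀ (Ω : Type) [Field Ω] (θ : ZMod p →+* Ω) (x : Fin (n + 1) ⊕ Fin r → Ω) (yy : ℕ → Ω),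
        Pt Q n bi x yy → eval₂ θ x (MvPolynomial.map (Int.castRingHom (ZMod p)) E)
          = ∏ i ∈ Finset.range Q, (x (Sum.inr (mi j l)) ^ (d (mi j l) / Q)
              - wf Q (d (mi j l) / Q) (θ ω) yy j l i) := by
    intro j l hjl hl
    obtain ⟨h1, h2⟩ := hd2 j l hjl hl
    have he : 2 * Q ≤ d (mi j l) / Q := by
      rw [Nat.le_div_iff_mul_le hQ0]
      calc 2 * Q * Q = 2 * Q ^ 2 := by ring
        _ ≤ _ := h2
    obtain ⟨E, hEh, hE⟩ := exists_E (n := n) hQ he ω hω bi (mi j l) j l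
    rw [Nat.mul_div_cancel' h1] at hEh
    obtain ⟨P, hP⟩ := MvPolynomial.map_surjective (Int.castRingHom (ZMod p))
      (ZMod.intCast_surjective) E
    refine ⟨homogeneousComponent (d (mi j l)) P, homogeneousComponent_isHomogeneous _ _, ?_⟩
    rw [map_hc, hP, homogeneousComponent_eq_self hEh]
    exact hE
  choose! E hEh hEe using hE
  let Gz : Fin r → MvPolynomial (Fin (n + 1) ⊕ Fin r) ℤ := fun i =>
    if h : ∃ j, 2 * j + 1 < n + 1 ∧ i = bi j then
      (X (Sum.inr i) ^ Q - X (Sum.inl ⟨2 * h.choose, by have := h.choose_spec.1; omega⟩) *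
        X (Sum.inl ⟨2 * h.choose + 1, h.choose_spec.1⟩) ^ (Q - 1)) ^ (d i / Q)
    else if h : ∃ jl : ℕ × ℕ, jl.1 < jl.2 ∧ 2 * jl.2 < n + 1 ∧ i = mi jl.1 jl.2 then
      E h.choose.1 h.choose.2
    else X (Sum.inr i) ^ (d i)
  have hG1 : ∀ j (hj : 2 * j + 1 < n + 1), Gz (bi j) = (X (Sum.inr (bi j)) ^ Q -
      X (Sum.inl ⟨2 * j, by omega⟩) * X (Sum.inl ⟨2 * j + 1, hj⟩) ^ (Q - 1)) ^ (d (bi j) / Q) := by
    intro j hj
    have h : ∃ j', 2 * j' + 1 < n + 1 ∧ bi j = bi j' := ⟨j, hj, rfl⟩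
    have h2 : h.choose = j := (hbi _ _ hj h.choose_spec.1 h.choose_spec.2).symm
    simp only [Gz, dif_pos h, h2]
  have hG2 : ∀ j l, j < l → 2 * l < n + 1 → Gz (mi j l) = E j l := by
    intro j l hjl hl
    have h0 : ¬ ∃ j', 2 * j' + 1 < n + 1 ∧ mi j l = bi j' := by
      rintro ⟨j', hj', hh⟩
      exact hbm j' j l hj' hjl hl hh.symm
    have h : ∃ jl : ℕ × ℕ, jl.1 < jl.2 ∧ 2 * jl.2 < n + 1 ∧ mi j l = mi jl.1 jl.2 :=
      ⟨(j, l), hjl, hl, rfl⟩
    obtain ⟨h3, h4⟩ := hmi _ _ _ _ hjl hl h.choose_spec.1 h.choose_spec.2.1 h.choose_spec.2.2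
    simp only [Gz, dif_neg h0, dif_pos h, ← h3, ← h4]
  have hG3 : ∀ i, (∀ j, 2 * j + 1 < n + 1 → i ≠ bi j) →
      (∀ j l, j < l → 2 * l < n + 1 → i ≠ mi j l) → Gz i = X (Sum.inr i) ^ (d i) := by
    intro i h1 h2
    have h0 : ¬ ∃ j', 2 * j' + 1 < n + 1 ∧ i = bi j' := by
      rintro ⟨j', hj', hh⟩
      exact h1 j' hj' hh
    have h : ¬ ∃ jl : ℕ × ℕ, jl.1 < jl.2 ∧ 2 * jl.2 < n + 1 ∧ i = mi jl.1 jl.2 := by
      rintro ⟨jl, ha, hb, hc⟩
      exact h2 _ _ ha hb hc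
    simp only [Gz, dif_neg h0, dif_neg h]
  have hGh : ∀ i, (Gz i).IsHomogeneous (d i) := by
    intro i
    by_cases h1 : ∃ j, 2 * j + 1 < n + 1 ∧ i = bi j
    · obtain ⟨j, hj, rfl⟩ := h1
      rw [hG1 j hj]
      have ha : (X (Sum.inr (bi j)) ^ Q - X (Sum.inl ⟨2 * j, by omega⟩) *
          X (Sum.inl ⟨2 * j + 1, hj⟩) ^ (Q - 1) :
          MvPolynomial (Fin (n + 1) ⊕ Fin r) ℤ).IsHomogeneous Q := by
        refine (isHomogeneous_X_pow _ _).sub ?_
        have hb := (isHomogeneous_X ℤ (Sum.inl ⟨2 * j, by omega⟩ : Fin (n + 1) ⊕ Fin r)).mul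
          (isHomogeneous_X_pow (R := ℤ) (Sum.inl ⟨2 * j + 1, hj⟩ : Fin (n + 1) ⊕ Fin r) (Q - 1))
        rwa [show 1 + (Q - 1) = Q by omega] at hb
      have hc := ha.pow (d (bi j) / Q)
      rwa [Nat.mul_div_cancel' (hd1 j hj)] at hc
    · by_cases h2 : ∃ jl : ℕ × ℕ, jl.1 < jl.2 ∧ 2 * jl.2 < n + 1 ∧ i = mi jl.1 jl.2
      · obtain ⟨⟨j, l⟩, hjl, hl, rfl⟩ := h2
        rw [hG2 j l hjl hl]
        exact hEh j l hjl hl
      · push Not at h1 h2
        rw [hG3 i h1 (fun j l hjl hl => h2 (j, l) hjl hl)]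
        exact isHomogeneous_X_pow _ _
  refine ⟨fun i => rename (idx n r).symm (Gz i),
    fun i => IsHomogeneous.rename_isHomogeneous (hGh i), fun B hB I hI hdim hred => ?_⟩
  have hchar : CharP (IsLocalRing.ResidueField B) p :=
    (CharP.charP_iff_prime_eq_zero hp (R := IsLocalRing.ResidueField B)).mpr hB
  let θ₀ : ZMod p →+* IsLocalRing.ResidueField B := ZMod.castHom dvd_rfl _
  have hcomp : θ₀.comp (Int.castRingHom (ZMod p)) = Int.castRingHom _ := RingHom.ext_int _ _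
  let ε := idx n r
  have hredh := red_hom B (I := I) hI
  obtain ⟨C, hC⟩ := growth2 I hI hdim.le
  have hmem : ∀ i, MvPolynomial.map (Int.castRingHom (IsLocalRing.ResidueField B)) (Gz i) ∈
      (red B I).comap (rename ε.symm : MvPolynomial (Fin (n + 1) ⊕ Fin r)
        (IsLocalRing.ResidueField B) →ₐ[IsLocalRing.ResidueField B] _) := by
    intro i
    have h := hred i
    rw [MvPolynomial.map_rename] at h
    exact h
  have hfin := kappa_blocks (κ := IsLocalRing.ResidueField B) (n := n) hQ hQ6 (θ₀ ω)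
    (hω.map_of_injective θ₀.injective) bi mi (fun i => d i / Q)
    (by
      intro j l hjl hl
      change 2 * Q ≤ d (mi j l) / Q
      rw [Nat.le_div_iff_mul_le hQ0]
      calc 2 * Q * Q = 2 * Q ^ 2 := by ring
        _ ≤ _ := (hd2 j l hjl hl).2)
    ((red B I).comap (rename ε.symm : MvPolynomial (Fin (n + 1) ⊕ Fin r)
      (IsLocalRing.ResidueField B) →ₐ[IsLocalRing.ResidueField B] _))
    (hom_equiv ε hredh) ⟨C, fun t => by rw [hf_equiv, red_hf B hI]; exact hC t⟩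
    (by
      intro P hP hJP j hj
      have h1 := hJP (hmem (bi j))
      rw [hG1 j hj, map_pow] at h1
      have h2 := hP.mem_of_pow_mem _ h1
      simpa only [map_sub, map_mul, map_pow, map_X] using h2)
    (by
      intro j l hjl hl
      refine ⟨_, hmem (mi j l), ?_⟩
      intro Ω _ θ x yy hpt
      rw [hG2 j l hjl hl, ← hcomp, ← MvPolynomial.map_map, eval₂_map]
      exact hEe j l hjl hl Ω (θ.comp θ₀) x yy hpt)
    (by
      intro P hP hJP i h1 h2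
      have h3 := hJP (hmem i)
      rw [hG3 i h1 h2, map_pow, map_X] at h3
      exact hP.mem_of_pow_mem _ h3)
  obtain ⟨K, hK⟩ := hfin
  refine ⟨K, fun k hk => ?_⟩
  have h1 := hK k hk
  rw [hf_equiv, hf_equiv, red_hf B hI, red_hf B hI] at h1
  exact h1

end Pool.Agent.U660.AC
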