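import Mathlib
import Pool.Agent.U660.AC.Cases

/-!
# Counting, and the final assembly
-/

set_option autoImplicit false
set_option linter.unusedSectionVars false

open MvPolynomial Pool.Agent.TH922.KC

namespace Pool.Agent.U660.AC

section count

variable {σ : Type*} [Finite σ]

lemma card_class (M : ℕ) (hM : 0 < M) (v : ℤ) (H : ℕ) (hH : M ≤ H) :
    ((2 * H + 1 : ℝ)) / (2 * M) ≤
      ((Finset.Icc (-(H : ℤ)) H).filter (fun x => (M : ℤ) ∣ x - v)).card := by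
  have h1 : (Finset.Icc (-(H : ℤ)) H).filter (fun x => (M : ℤ) ∣ x - v)
      = (Finset.Ioc (-(H : ℤ) - 1) H).filter (fun x => x ≡ v [ZMOD (M : ℤ)]) := by
    ext x
    simp only [Finset.mem_filter, Finset.mem_Icc, Finset.mem_Ioc]
    constructor
    · rintro ⟨⟨ha, hb⟩, hc⟩
      exact ⟨⟨by omega, hb⟩, (Int.modEq_iff_dvd.mpr hc).symm⟩
    · rintro ⟨⟨ha, hb⟩, hc⟩
      exact ⟨⟨by omega, hb⟩, Int.modEq_iff_dvd.mp hc.symm⟩
  have hM' : (0 : ℤ) < M := by exact_mod_cast hM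
  have h2 := Int.Ioc_filter_modEq_card (-(H : ℤ) - 1) H hM' v
  rw [← h1] at h2
  set N := ((Finset.Icc (-(H : ℤ)) H).filter (fun x => (M : ℤ) ∣ x - v)).card with hN
  have hMq : (0 : ℚ) < M := by exact_mod_cast hM
  have h3 : ((N : ℤ) : ℚ) ≥ (2 * H + 1) / M - 1 := by
    rw [h2]
    have ha := Int.lt_floor_add_one (((H : ℤ) - v : ℚ) / ((M : ℤ) : ℚ))
    have hb := Int.floor_le (((((-(H : ℤ) - 1 : ℤ)) : ℚ) - v) / ((M : ℤ) : ℚ))
    have hc : ((max (⌊(((H : ℤ) : ℚ) - v) / ((M : ℤ) : ℚ)⌋ -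
        ⌊((((-(H : ℤ) - 1 : ℤ)) : ℚ) - v) / ((M : ℤ) : ℚ)⌋) 0 : ℤ) : ℚ) ≥
        (⌊(((H : ℤ) : ℚ) - v) / ((M : ℤ) : ℚ)⌋ : ℚ) -
        (⌊((((-(H : ℤ) - 1 : ℤ)) : ℚ) - v) / ((M : ℤ) : ℚ)⌋ : ℚ) := by
      have := le_max_left (⌊(((H : ℤ) : ℚ) - v) / ((M : ℤ) : ℚ)⌋ -
        ⌊((((-(H : ℤ) - 1 : ℤ)) : ℚ) - v) / ((M : ℤ) : ℚ)⌋) 0
      exact_mod_cast this
    have hd : (((H : ℤ) - v : ℚ) / ((M : ℤ) : ℚ)) -
        (((((-(H : ℤ) - 1 : ℤ)) : ℚ) - v) / ((M : ℤ) : ℚ)) = (2 * H + 1) / M := by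
      push_cast
      field_simp
      ring
    push_cast at *
    linarith
  have h4 : (N : ℝ) ≥ (2 * H + 1) / M - 1 := by
    have : ((N : ℚ) : ℝ) ≥ (((2 * H + 1) / M - 1 : ℚ) : ℝ) := by
      exact_mod_cast h3
    push_cast at this
    exact this
  have hMr : (0 : ℝ) < M := by exact_mod_cast hM
  have hHr : (M : ℝ) ≤ H := by exact_mod_cast hH
  have h5 : (2 * H + 1 : ℝ) / (2 * M) ≤ (2 * H + 1) / M - 1 := by
    rw [div_le_iff₀ (by positivity), sub_mul, ← mul_div_right_comm, mul_comm (2 : ℝ) (M : ℝ),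
      ← mul_assoc, mul_div_right_comm, mul_div_assoc, div_self hMr.ne']
    nlinarith
  linarith

/-- a positive proportion of the integral vectors is in a congruence class -/
lemma proportion (M : ℕ) (hM : 0 < M) (e : σ → ℤ) : ∃ δ : ℝ, 0 < δ ∧ ∀ H : ℕ, M ≤ H →
    δ * ({c : σ → ℤ | ∀ s, |c s| ≤ H}).ncard ≤
      ({c : σ → ℤ | (∀ s, |c s| ≤ H) ∧ ∀ s, (M : ℤ) ∣ c s - e s}).ncard := by
  classical
  have := Fintype.ofFinite σ
  have hMr : (0 : ℝ) < M := by exact_mod_cast hM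
  refine ⟨(1 / (2 * M)) ^ Fintype.card σ, by positivity, fun H hH => ?_⟩
  have h1 : {c : σ → ℤ | ∀ s, |c s| ≤ H} =
      ↑(Fintype.piFinset (fun _ : σ => Finset.Icc (-(H : ℤ)) H)) := by
    ext c
    simp only [Set.mem_ofPred_eq, Finset.mem_coe, Fintype.mem_piFinset, Finset.mem_Icc, abs_le]
  have h2 : {c : σ → ℤ | (∀ s, |c s| ≤ H) ∧ ∀ s, (M : ℤ) ∣ c s - e s} =
      ↑(Fintype.piFinset (fun s : σ =>
        (Finset.Icc (-(H : ℤ)) H).filter (fun x => (M : ℤ) ∣ x - e s))) := by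
    ext c
    simp only [Set.mem_ofPred_eq, Finset.mem_coe, Fintype.mem_piFinset, Finset.mem_filter,
      Finset.mem_Icc, abs_le]
    exact ⟨fun h s => ⟨h.1 s, h.2 s⟩, fun h => ⟨fun s => (h s).1, fun s => (h s).2⟩⟩
  rw [h1, h2, Set.ncard_coe_finset, Set.ncard_coe_finset, Fintype.card_piFinset,
    Fintype.card_piFinset]
  have h3 : (Finset.Icc (-(H : ℤ)) H).card = 2 * H + 1 := by
    rw [Int.card_Icc]
    omega
  rw [h3, Finset.prod_const, Finset.card_univ]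
  push_cast
  rw [← mul_pow, ← Finset.card_univ, ← Finset.prod_const]
  refine Finset.prod_le_prod (fun s _ => by positivity) fun s _ => ?_
  have h4 := card_class M hM (e s) H hH
  have h5 : 1 / (2 * (M : ℝ)) * (2 * H + 1) = (2 * H + 1 : ℝ) / (2 * M) := by ring
  rw [h5]
  exact h4

/-- congruence classes are Zariski dense -/
lemma dense (M : ℕ) (hM : 0 < M) (e : σ → ℤ) (h : MvPolynomial σ ℂ) (hh : h ≠ 0) :
    ∃ c : σ → ℤ, (∀ s, (M : ℤ) ∣ c s - e s) ∧ eval (fun s => (c s : ℂ)) h ≠ 0 := by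
  by_contra hcon
  push Not at hcon
  apply hh
  refine funext_set (fun s => {z : ℂ | ∃ x : ℤ, (M : ℤ) ∣ x - e s ∧ z = x}) (fun s => ?_)
    fun x hx => ?_
  · have hinj : Function.Injective (fun t : ℤ => ((e s + M * t : ℤ) : ℂ)) := by
      intro a b hab
      have h1 : e s + M * a = e s + M * b := by
        have h0 : ((e s + M * a : ℤ) : ℂ) = ((e s + M * b : ℤ) : ℂ) := hab
        exact_mod_cast h0
      have h2 : (M : ℤ) ≠ 0 := by exact_mod_cast hM.ne'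
      exact mul_left_cancel₀ h2 (add_left_cancel h1)
    refine Set.Infinite.mono ?_ (Set.infinite_range_of_injective hinj)
    rintro _ ⟨t, rfl⟩
    exact ⟨e s + M * t, ⟨t, by ring⟩, rfl⟩
  · rw [map_zero]
    have hx' : ∀ s, ∃ y : ℤ, (M : ℤ) ∣ y - e s ∧ x s = y := fun s => hx s (Set.mem_univ s)
    choose c hc1 hc2 using hx'
    have := hcon c hc1
    rw [← this]
    congr 1
    congr 1
    funext s
    exact hc2 s

end count

/-- the two kinds of numbers `Q` -/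
def Ad (n : ℕ) {r : ℕ} (d : Fin r → ℕ) (Q : ℕ) : Prop :=
  (0 < Q ∧ ∃ m, Rob' n m ∧ ∃ g : Fin r → Fin m,
    ∀ c, Q ∣ ∏ i ∈ Finset.univ.filter (fun i => g i = c), d i) ∨
  (Q.Coprime 6 ∧ ∃ S T : Finset (Fin r), Disjoint S T ∧ (n + 1) / 2 ≤ S.card ∧
    ((n + 2) / 2).choose 2 ≤ T.card ∧ (∀ i ∈ S, Q ∣ d i) ∧ ∀ i ∈ T, Q ∣ d i ∧ 2 * Q ^ 2 ≤ d i)

lemma Ad.le {n r : ℕ} (hn : 0 < n) {d : Fin r → ℕ} (hd : ∀ i, 0 < d i) {Q : ℕ} (h : Ad n d Q) :
    Q ≤ ∏ i, d i := by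
  classical
  have hpos : 0 < ∏ i, d i := Finset.prod_pos fun i _ => hd i
  rcases h with ⟨hQ, m, hm, g, hg⟩ | ⟨hQ6, S, T, hST, hS, hT, hSd, hTd⟩
  · have hm0 := rob_pos hn (rob_of_rob' hm)
    refine Nat.le_of_dvd hpos ((hg ⟨0, hm0⟩).trans ?_)
    exact Finset.prod_dvd_prod_of_subset _ _ _ (Finset.filter_subset _ _)
  · have hS0 : 0 < S.card := by omega
    obtain ⟨i, hi⟩ := Finset.card_pos.mp hS0
    exact Nat.le_of_dvd hpos ((hSd i hi).trans (Finset.dvd_prod_of_mem d (Finset.mem_univ i)))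

lemma exists_pairs {r : ℕ} (i0 : Fin r) (L : ℕ) (T : Finset (Fin r))
    (h : L.choose 2 ≤ T.card) :
    ∃ mi : ℕ → ℕ → Fin r, (∀ j l, j < l → l < L → mi j l ∈ T) ∧
      ∀ j l j' l', j < l → l < L → j' < l' → l' < L → mi j l = mi j' l' → j = j' ∧ l = l' := by
  classical
  have hcard : Fintype.card (Finset.powersetCard 2 (Finset.range L)) ≤ Fintype.card T := by
    rw [Fintype.card_coe, Fintype.card_coe, Finset.card_powersetCard, Finset.card_range]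
    exact h
  obtain ⟨φ⟩ := Function.Embedding.nonempty_of_card_le hcard
  have hmem : ∀ j l : ℕ, j < l ∧ l < L →
      ({j, l} : Finset ℕ) ∈ Finset.powersetCard 2 (Finset.range L) := by
    rintro j l ⟨h1, h2⟩
    rw [Finset.mem_powersetCard]
    refine ⟨?_, Finset.card_pair (by omega)⟩
    intro x hx
    rw [Finset.mem_insert, Finset.mem_singleton] at hx
    rw [Finset.mem_range]
    omega
  refine ⟨fun j l => if h : j < l ∧ l < L then (φ ⟨{j, l}, hmem j l h⟩ : Fin r) else i0,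
    fun j l h1 h2 => ?_, fun j l j' l' h1 h2 h3 h4 heq => ?_⟩
  · dsimp only
    rw [dif_pos (And.intro h1 h2)]
    exact (φ _).2
  · simp only [dif_pos (And.intro h1 h2), dif_pos (And.intro h3 h4)] at heq
    have h5 := φ.injective (Subtype.ext heq)
    have h6 : ({j, l} : Finset ℕ) = {j', l'} := congrArg Subtype.val h5
    have a1 : j ∈ ({j', l'} : Finset ℕ) := by rw [← h6]; simp
    have a2 : l ∈ ({j', l'} : Finset ℕ) := by rw [← h6]; simp
    have a3 : j' ∈ ({j, l} : Finset ℕ) := by rw [h6]; simp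
    rw [Finset.mem_insert, Finset.mem_singleton] at a1 a2 a3
    omega

lemma exists_sing {r : ℕ} (i0 : Fin r) (L : ℕ) (S : Finset (Fin r)) (h : L ≤ S.card) :
    ∃ bi : ℕ → Fin r, (∀ j, j < L → bi j ∈ S) ∧
      ∀ j j', j < L → j' < L → bi j = bi j' → j = j' := by
  classical
  have hcard : Fintype.card (Fin L) ≤ Fintype.card S := by
    rw [Fintype.card_coe, Fintype.card_fin]
    exact h
  obtain ⟨φ⟩ := Function.Embedding.nonempty_of_card_le hcard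
  refine ⟨fun j => if h : j < L then (φ ⟨j, h⟩ : Fin r) else i0, fun j h1 => ?_,
    fun j j' h1 h2 heq => ?_⟩
  · dsimp only
    rw [dif_pos h1]
    exact (φ _).2
  · simp only [dif_pos h1, dif_pos h2] at heq
    exact congrArg Fin.val (φ.injective (Subtype.ext heq))

lemma Ad.loc {n r : ℕ} (hn : 0 < n) {d : Fin r → ℕ} {Q : ℕ} (h : Ad n d Q) (N₀ : ℕ) :
    ∃ p, N₀ < p ∧ p.Prime ∧ Loc n d Q p := by
  classical
  rcases h with ⟨hQ, m, hm, g, hg⟩ | ⟨hQ6, S, T, hST, hS, hT, hSd, hTd⟩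
  · obtain ⟨N₁, h1⟩ := loc_group d (rob_of_rob' hm) g Q hQ hg
    obtain ⟨p, hp1, hp2⟩ := Nat.exists_infinite_primes (max N₀ N₁ + 1)
    have := le_max_left N₀ N₁
    have := le_max_right N₀ N₁
    exact ⟨p, by omega, hp2, h1 p (by omega) hp2⟩
  · rcases Nat.lt_or_ge Q 2 with hQ2 | hQ2
    · have hQ1 : Q = 1 := by
        rcases Nat.eq_zero_or_pos Q with h0 | h0
        · rw [h0] at hQ6
          norm_num at hQ6
        · omega
      subst hQ1
      obtain ⟨p, hp1, hp2⟩ := Nat.exists_infinite_primes (N₀ + 1)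
      exact ⟨p, by omega, hp2, loc_one d p⟩
    · obtain ⟨i0, hi0⟩ := Finset.card_pos.mp (show 0 < S.card by omega)
      obtain ⟨bi, hb1, hb2⟩ := exists_sing i0 ((n + 1) / 2) S hS
      obtain ⟨mi, hm1, hm2⟩ := exists_pairs i0 ((n + 2) / 2) T hT
      obtain ⟨p, hp1, hp2, hp3⟩ := Nat.exists_prime_gt_modEq_one N₀ (show Q ≠ 0 by omega)
      refine ⟨p, hp2, hp1, loc_pair d Q hQ2 hQ6 bi mi ?_ ?_ ?_ ?_ ?_ p hp1 hp3⟩
      · exact fun j j' h1 h2 => hb2 j j' (by omega) (by omega)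
      · exact fun j l j' l' h1 h2 h3 h4 => hm2 j l j' l' h1 (by omega) h3 (by omega)
      · intro j j' l' h1 h2 h3 heq
        have a1 := hb1 j (by omega)
        have a2 := hm1 j' l' h2 (by omega)
        rw [heq] at a1
        exact (Finset.disjoint_left.mp hST a1) a2
      · exact fun j h1 => hSd _ (hb1 j (by omega))
      · exact fun j l h1 h2 => hTd _ (hm1 j l h1 (by omega))

/-- **The main theorem.** -/
theorem main {n r : ℕ} (hn : 0 < n) (d : Fin r → ℕ) (hd : ∀ i, 0 < d i) :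
    ∃ (M : ℕ) (e : Co n d → ℤ), 0 < M ∧
      ∀ A : Subring ℂ, (∀ p : ℕ, p.Prime → p ∣ M → ((p : ℂ))⁻¹ ∉ A) →
        ∀ c : Co n d → ℂ, (∀ s, ∃ u ∈ A, c s = e s + M * u) →
          ∀ Q, Ad n d Q → Dv n (sy d c) Q := by
  classical
  obtain ⟨M, e, hM, h⟩ := assemble (n := n) d
    ((Finset.range (∏ i, d i + 1)).filter (fun Q => Ad n d Q)) (fun Q hQ N₀ =>
      Ad.loc hn (Finset.mem_filter.mp hQ).2 N₀)
  refine ⟨M, e, hM, fun A hA c hc Q hQ => h A hA c hc Q ?_⟩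
  rw [Finset.mem_filter, Finset.mem_range]
  exact ⟨Nat.lt_succ_of_le (hQ.le hn hd), hQ⟩

lemma inv_not_mem (p : ℕ) (hp : p.Prime) : ((p : ℂ))⁻¹ ∉ (Int.castRingHom ℂ).range := by
  rintro ⟨x, hx⟩
  have hp0 : (p : ℂ) ≠ 0 := by exact_mod_cast hp.ne_zero
  have h1 : ((x * p : ℤ) : ℂ) = ((1 : ℤ) : ℂ) := by
    push_cast
    have hx' : (x : ℂ) = ((p : ℂ))⁻¹ := hx
    rw [hx', inv_mul_cancel₀ hp0]
  have h2 : x * p = 1 := by exact_mod_cast h1
  have h3 : (p : ℤ) ∣ 1 := Dvd.intro_left x h2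
  have h4 : p ∣ 1 := by exact_mod_cast h3
  exact hp.one_lt.ne' (Nat.dvd_one.mp h4)

end Pool.Agent.U660.AC
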